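import Pool.Agent.K1H81.DC.Stm

/-! Project DC (helper81), piece QP: the quadratic characters of an extension, and invariance. -/

set_option autoImplicit false

namespace Pool.Agent.K1H1.DC.Qp

open Pool.Agent.K1H81.DC Pool.Agent.K1H81.HV

theorem pm_pow {R : Type*} [Ring R] {a : R} (ha : a = 1 ∨ a = -1) {m n : ℕ}
    (h : m % 2 = n % 2) : a ^ m = a ^ n := by
  rcases ha with rfl | rfl
  · simp
  · rw [neg_one_pow_eq_pow_mod_two, neg_one_pow_eq_pow_mod_two (n := n), h]

theorem geom_mod_two (q : ℕ) (hq : q % 2 = 1) (l : ℕ) :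
    (∑ i ∈ Finset.range l, q ^ i) % 2 = l % 2 := by
  induction l with
  | zero => simp
  | succ l ih =>
    rw [Finset.sum_range_succ, Nat.add_mod, ih, Nat.pow_mod, hq, one_pow]
    omega

theorem t : S_QP := by
  classical
  intro p _ hp2 j hj y hy
  have hpp : p.Prime := Fact.out
  have hpo : p % 2 = 1 := hpp.eq_two_or_odd.resolve_left hp2
  have hne : (1 : KK p) ≠ -1 := by
    intro h
    have h2 : ((2 : ℕ) : KK p) = 0 := by
      push_cast
      linear_combination h
    rw [CharP.cast_eq_zero_iff (KK p) p 2] at h2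
    have := Nat.le_of_dvd (by norm_num) h2
    have := hpp.two_le
    omega
  by_cases h0 : y = 0
  · subst h0
    refine ⟨fun l hl => ?_, ?_⟩
    · unfold qc
      rw [if_pos rfl, if_pos rfl, zero_pow hl.ne']
    · rw [zero_pow hpp.ne_zero]
  · have hqo : p ^ j % 2 = 1 := by
      rw [Nat.pow_mod, hpo, one_pow]
      rfl
    have hq1 : 1 ≤ p ^ j := Nat.one_le_pow _ _ hpp.pos
    set e := (p ^ j - 1) / 2 with he
    have h2e : 2 * e = p ^ j - 1 := by omega
    have ha : y ^ e = 1 ∨ y ^ e = -1 := by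
      have h1 : y ^ (p ^ j - 1) = 1 := by
        have h2 : y ^ (p ^ j - 1) * y = 1 * y := by
          rw [← pow_succ, Nat.sub_add_cancel hq1, one_mul]
          exact hy
        exact mul_right_cancel₀ h0 h2
      rw [← h2e, mul_comm, pow_mul] at h1
      exact sq_eq_one_iff.mp h1
    have hqj : qc p j y = if y ^ e = 1 then 1 else -1 := by
      unfold qc
      rw [if_neg h0]
    refine ⟨fun l hl => ?_, ?_⟩
    · have hN : (p ^ (j * l) - 1) / 2 = e * ∑ i ∈ Finset.range l, (p ^ j) ^ i := by
        have h1 : (∑ i ∈ Finset.range l, (p ^ j) ^ i) * (p ^ j - 1) = (p ^ j) ^ l - 1 := by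
          exact geom_sum_mul_of_one_le hq1 l
        rw [pow_mul, ← h1, ← h2e]
        rw [mul_comm 2 e, ← mul_assoc, Nat.mul_div_cancel _ (by norm_num), mul_comm]
      have h1 : qc p (j * l) y = if (y ^ e) ^ l = 1 then 1 else -1 := by
        unfold qc
        rw [if_neg h0, hN, pow_mul, pm_pow ha (geom_mod_two _ hqo l)]
      rw [h1, hqj]
      rcases ha with ha | ha
      · rw [ha]; simp
      · rw [ha, if_neg (Ne.symm hne)]
        rcases Nat.even_or_odd l with hl | hl
        · rw [hl.neg_one_pow, hl.neg_one_pow, if_pos rfl]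
        · rw [hl.neg_one_pow, hl.neg_one_pow, if_neg (Ne.symm hne)]
    · have h1 : (y ^ p) ^ e = y ^ e := by
        rw [← pow_mul, mul_comm, pow_mul]
        have := pm_pow ha (m := p) (n := 1) (by omega)
        rw [this, pow_one]
      rw [hqj]
      unfold qc
      rw [if_neg (pow_ne_zero _ h0), ← he, h1]

end Pool.Agent.K1H1.DC.Qp
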